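import Mathlib

set_option autoImplicit false

/-!
# A weighted criterion for Frankl's inequality in (semimodular) lattices

Let `L` be a finite lattice, `s`, `m : L`, and let `w ≥ 0` be weights, not all zero, on
join-irreducible elements `b ≤ s` which are not below `m`.  Suppose

1. every `x` which is not above `s` is above at most half of the total weight;
2. every join-irreducible `a` which is below neither `s` nor `m` has all its strict minorants below
   `m`, and `v ⋖ v ⊔ a` whenever `v` is above the strict minorants of `a` but not above `a` (this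
   second half always holds in an upper semimodular lattice).

Then `2 ∑ w b |[b,1]| ≤ (∑ w b) |L|`.

Proof.  Let `x ≥ s`, `t = x ⊓ m`, and let `A` be a minimal set of join-irreducible elements `a ≤ x`,
below neither `s` nor `m`, with `x = t ⊔ s ⊔ ⨆ A`.  Put `y = t ⊔ ⨆ A`.  No `b` of positive weight is
below `y`: otherwise take `B ⊆ A` minimal with `b ≤ t ⊔ ⨆ B`, `a ∈ B` and `v = t ⊔ ⨆ (B \ {a})`; then
`v ⋖ v ⊔ a` and `v < v ⊔ b ≤ v ⊔ a`, so `a ≤ v ⊔ b` and `a` is superfluous in `A`.  As `x = y ⊔ s`, the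
map `y ↦ y ⊔ s` sends the elements which are above no `b` of positive weight onto the elements above
`s`.  Now sum the weight below `x` over all `x`.
-/

namespace Pool.Agent.H27.T2.HalfBelow

open Finset

open scoped Classical

/-- If `z` is not below `w`, some join-irreducible below `z` is not below `w`. -/
lemma exists_min {L : Type*} [Lattice L] [Finite L] {z w : L} (h : ¬ z ≤ w) :
    ∃ c : L, SupIrred c ∧ c ≤ z ∧ ¬ c ≤ w := by
  obtain ⟨c, hc⟩ := (Set.toFinite {c : L | c ≤ z ∧ ¬ c ≤ w}).exists_minimal ⟨z, le_rfl, h⟩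
  refine ⟨c, ⟨?_, ?_⟩, hc.prop.1, hc.prop.2⟩
  · intro hmin
    exact hc.prop.2 ((hmin inf_le_left).trans inf_le_right)
  · intro b d hbd
    by_contra hne
    push Not at hne
    have hb : b < c := lt_of_le_of_ne (hbd ▸ le_sup_left) hne.1
    have hd : d < c := lt_of_le_of_ne (hbd ▸ le_sup_right) hne.2
    have key : ∀ e : L, e < c → e ≤ w := by
      intro e he
      by_contra hew
      exact absurd (hc.le_of_le ⟨he.le.trans hc.prop.1, hew⟩ he.le) (not_le_of_gt he)
    exact hc.prop.2 (hbd ▸ sup_le (key b hb) (key d hd))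

section core

variable {L : Type*} [Lattice L] [BoundedOrder L] [Fintype L]

/-- The exchange step: `b ≤ s` is not below `t ⊔ ⨆ A` if it is not below `t` and `A` is irredundant
over `t ⊔ s`. -/
lemma not_le_of_irredundant {t s b : L} {A : Finset L} (hbt : ¬ b ≤ t) (hbs : b ≤ s)
    (hstep : ∀ a ∈ A, ∀ v : L, t ≤ v → ¬ a ≤ v → v ⋖ v ⊔ a)
    (hirr : ∀ a ∈ A, ¬ a ≤ t ⊔ s ⊔ (A.erase a).sup id) : ¬ b ≤ t ⊔ A.sup id := by
  intro hb
  obtain ⟨B, hB⟩ := (Set.toFinite {B : Finset L | B ⊆ A ∧ b ≤ t ⊔ B.sup id}).exists_minimal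
    ⟨A, Finset.Subset.refl A, hb⟩
  obtain ⟨⟨hBA, hbB⟩, hmin⟩ := hB
  have hBne : B.Nonempty := by
    rw [Finset.nonempty_iff_ne_empty]
    intro h0
    rw [h0, Finset.sup_empty, sup_bot_eq] at hbB
    exact hbt hbB
  obtain ⟨a, haB⟩ := hBne
  set v := t ⊔ (B.erase a).sup id with hv
  have hbv : ¬ b ≤ v := by
    intro h
    have h1 := hmin ⟨(Finset.erase_subset a B).trans hBA, h⟩ (Finset.erase_subset a B)
    exact (Finset.notMem_erase a B) (h1 haB)
  have hsup : v ⊔ a = t ⊔ B.sup id := by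
    conv_rhs => rw [← Finset.insert_erase haB, Finset.sup_insert, id_eq]
    rw [hv, sup_assoc, sup_comm a]
  have hav : ¬ a ≤ v := by
    intro h
    apply hbv
    rw [sup_eq_left.2 h] at hsup
    rw [hsup]; exact hbB
  have hcov : v ⋖ v ⊔ a := hstep a (hBA haB) v le_sup_left hav
  have hvb : v < v ⊔ b := lt_of_le_of_ne le_sup_left (fun h => hbv (h ▸ le_sup_right))
  have hle : v ⊔ b ≤ v ⊔ a := sup_le le_sup_left (hsup ▸ hbB)
  have heq : v ⊔ b = v ⊔ a := by
    rcases hle.lt_or_eq with h | h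
    · exact absurd h (hcov.2 hvb)
    · exact h
  apply hirr a (hBA haB)
  have h1 : a ≤ v ⊔ b := heq ▸ le_sup_right
  refine h1.trans (sup_le ?_ ?_)
  · refine sup_le (le_sup_of_le_left le_sup_left) (le_sup_of_le_right ?_)
    exact Finset.sup_mono (Finset.erase_subset_erase a hBA)
  · exact hbs.trans (le_sup_of_le_left le_sup_right)

/-- Every `x ≥ s` is `y ⊔ s` for some `y` which is above no element of positive weight. -/
lemma exists_partner {s m : L} {P : L → Prop} (hP : ∀ b, P b → b ≤ s ∧ ¬ b ≤ m)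
    (h2 : ∀ a : L, SupIrred a → ¬ a ≤ s → ¬ a ≤ m → (∀ z : L, z < a → z ≤ m) ∧
      ∀ v : L, (∀ z : L, z < a → z ≤ v) → ¬ a ≤ v → v ⋖ v ⊔ a) {x : L} (hsx : s ≤ x) :
    ∃ y : L, (∀ b, P b → ¬ b ≤ y) ∧ y ⊔ s = x := by
  set t := x ⊓ m with ht
  set S : Finset L := univ.filter (fun a => SupIrred a ∧ a ≤ x ∧ ¬ a ≤ s ∧ ¬ a ≤ m) with hS
  have hSx : t ⊔ s ⊔ S.sup id = x := by
    apply le_antisymm
    · refine sup_le (sup_le inf_le_left hsx) (Finset.sup_le fun a ha => ?_)
      rw [hS, mem_filter] at ha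
      exact ha.2.2.1
    · by_contra hne
      obtain ⟨a, ha, hax, hay⟩ := exists_min hne
      apply hay
      by_cases has : a ≤ s
      · exact le_sup_of_le_left (le_sup_of_le_right has)
      · by_cases ham : a ≤ m
        · exact le_sup_of_le_left (le_sup_of_le_left (le_inf hax ham))
        · exact le_sup_of_le_right (Finset.le_sup (f := id)
            (by rw [hS, mem_filter]; exact ⟨mem_univ _, ha, hax, has, ham⟩))
  obtain ⟨A, hA⟩ := (Set.toFinite {A : Finset L | A ⊆ S ∧ t ⊔ s ⊔ A.sup id = x}).exists_minimal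
    ⟨S, Finset.Subset.refl S, hSx⟩
  obtain ⟨⟨hAS, hAx⟩, hmin⟩ := hA
  have hirr : ∀ a ∈ A, ¬ a ≤ t ⊔ s ⊔ (A.erase a).sup id := by
    intro a ha hle
    have h1 : t ⊔ s ⊔ (A.erase a).sup id = x := by
      rw [← hAx]
      apply le_antisymm
      · exact sup_le_sup_left (Finset.sup_mono (Finset.erase_subset a A)) _
      · conv_lhs => rw [← Finset.insert_erase ha, Finset.sup_insert, id_eq]
        exact sup_le le_sup_left (sup_le hle le_sup_right)
    exact (Finset.notMem_erase a A)
      (hmin ⟨(Finset.erase_subset a A).trans hAS, h1⟩ (Finset.erase_subset a A) ha)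
  have hstep : ∀ a ∈ A, ∀ v : L, t ≤ v → ¬ a ≤ v → v ⋖ v ⊔ a := by
    intro a ha v htv hav
    have h := hAS ha
    rw [hS, mem_filter] at h
    obtain ⟨-, haI, hax, has, ham⟩ := h
    obtain ⟨hlow, hc⟩ := h2 a haI has ham
    exact hc v (fun z hz => (le_inf (hz.le.trans hax) (hlow z hz)).trans htv) hav
  refine ⟨t ⊔ A.sup id, ?_, ?_⟩
  · intro b hb
    exact not_le_of_irredundant (fun hh => (hP b hb).2 (hh.trans inf_le_right)) (hP b hb).1
      hstep hirr
  · rw [sup_right_comm]; exact hAx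

/-- The weighted count. -/
lemma weighted {s m : L} (w : L → ℝ) (hw : ∀ b, 0 ≤ w b) (hne : ∃ b, w b ≠ 0)
    (hP : ∀ b, w b ≠ 0 → b ≤ s ∧ ¬ b ≤ m)
    (h1 : ∀ x : L, ¬ s ≤ x → 2 * ∑ b : L with b ≤ x, w b ≤ ∑ b : L, w b)
    (h2 : ∀ a : L, SupIrred a → ¬ a ≤ s → ¬ a ≤ m → (∀ z : L, z < a → z ≤ m) ∧
      ∀ v : L, (∀ z : L, z < a → z ≤ v) → ¬ a ≤ v → v ⋖ v ⊔ a) :
    2 * ∑ b : L, w b * (#{x : L | b ≤ x} : ℝ) ≤ (∑ b : L, w b) * Fintype.card L := by
  set W := ∑ b : L, w b with hWdef
  have hW : 0 ≤ W := Finset.sum_nonneg fun b _ => hw b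
  have hsurj : #{x : L | s ≤ x} ≤ #{y : L | ∀ b, w b ≠ 0 → ¬ b ≤ y} := by
    apply Finset.card_le_card_of_surjOn (fun y => y ⊔ s)
    intro x hx
    simp only [coe_filter, mem_univ, true_and, Set.mem_ofPred_eq] at hx
    obtain ⟨y, hy1, hy2⟩ := exists_partner hP h2 hx
    exact ⟨y, by simpa using hy1, hy2⟩
  -- double counting
  have hdc : ∑ x : L, ∑ b : L with b ≤ x, w b = ∑ b : L, w b * (#{x : L | b ≤ x} : ℝ) := by
    simp_rw [Finset.sum_filter]
    rw [Finset.sum_comm]
    apply Finset.sum_congr rfl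
    intro j _
    rw [← Finset.sum_filter, Finset.sum_const, nsmul_eq_mul, mul_comm]
  have hle : ∀ x : L, 2 * ∑ b : L with b ≤ x, w b
      ≤ W + (if s ≤ x then W else 0) + (if ∀ b, w b ≠ 0 → ¬ b ≤ x then -W else 0) := by
    intro x
    have htot : ∑ b : L with b ≤ x, w b ≤ W :=
      Finset.sum_le_sum_of_subset_of_nonneg (Finset.filter_subset _ _) fun b _ _ => hw b
    by_cases hs : s ≤ x
    · have hn : ¬ ∀ b, w b ≠ 0 → ¬ b ≤ x := by
        intro hall
        obtain ⟨b, hb⟩ := hne
        exact hall b hb ((hP b hb).1.trans hs)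
      rw [if_pos hs, if_neg hn]
      linarith
    · rw [if_neg hs]
      by_cases hn : ∀ b, w b ≠ 0 → ¬ b ≤ x
      · rw [if_pos hn]
        have h0 : ∑ b : L with b ≤ x, w b = 0 := by
          apply Finset.sum_eq_zero
          intro b hb
          rw [mem_filter] at hb
          by_contra h0
          exact hn b h0 hb.2
        rw [h0]
        linarith
      · rw [if_neg hn]
        have := h1 x hs
        linarith
  have hcast : (#{x : L | s ≤ x} : ℝ) ≤ #{y : L | ∀ b, w b ≠ 0 → ¬ b ≤ y} := by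
    exact_mod_cast hsurj
  rw [← hdc, Finset.mul_sum]
  calc ∑ x : L, 2 * ∑ b : L with b ≤ x, w b
      ≤ ∑ x : L, (W + (if s ≤ x then W else 0) +
          (if ∀ b, w b ≠ 0 → ¬ b ≤ x then -W else 0)) :=
        Finset.sum_le_sum (fun x _ => hle x)
    _ = W * Fintype.card L + W * #{x : L | s ≤ x}
          - W * #{y : L | ∀ b, w b ≠ 0 → ¬ b ≤ y} := by
        rw [Finset.sum_add_distrib, Finset.sum_add_distrib, ← Finset.sum_filter,
          ← Finset.sum_filter, Finset.sum_const, Finset.sum_const, Finset.sum_const,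
          Finset.card_univ, nsmul_eq_mul, nsmul_eq_mul, nsmul_eq_mul]
        ring
    _ ≤ W * Fintype.card L := by
        have := mul_le_mul_of_nonneg_left hcast hW
        linarith

end core

/-- Let `L` be a finite lattice, `s`, `m : L`, and let `w ≥ 0` be weights, not all zero, which are
positive only at join-irreducible elements below `s` and not below `m`, such that (1) every `x` which
is not above `s` is above at most half of the total weight, and (2) every join-irreducible `a` which is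
below neither `s` nor `m` has all its strict minorants below `m`, and `v ⋖ v ⊔ a` whenever `v` is above
all strict minorants of `a` but not above `a`.  Then `2 ∑ w b |[b,1]| ≤ (∑ w b) |L|`, so some maximal
join-irreducible element lies below at most half of the elements. -/
theorem half_below (L : Type*) [Lattice L] [Fintype L] (s m : L) (w : L → ℝ) (hw : ∀ b, 0 ≤ w b)
    (hne : ∃ b, w b ≠ 0) (hI : ∀ b, w b ≠ 0 → SupIrred b ∧ b ≤ s ∧ ¬ b ≤ m)
    (h1 : ∀ x : L, ¬ s ≤ x → 2 * ∑ b : L with b ≤ x, w b ≤ ∑ b : L, w b)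
    (h2 : ∀ a : L, SupIrred a → ¬ a ≤ s → ¬ a ≤ m → (∀ z : L, z < a → z ≤ m) ∧
      ∀ v : L, (∀ z : L, z < a → z ≤ v) → ¬ a ≤ v → v ⋖ v ⊔ a) :
    2 * ∑ b : L, w b * (Nat.card {x : L // b ≤ x} : ℝ) ≤ (∑ b : L, w b) * Nat.card L ∧
      ∃ a : L, Maximal SupIrred a ∧ 2 * Nat.card {x : L // a ≤ x} ≤ Nat.card L := by
  have : Nonempty L := ⟨s⟩
  let _ : BoundedOrder L := Fintype.toBoundedOrder L
  have key := weighted (s := s) (m := m) w hw hne (fun b hb => (hI b hb).2) h1 h2
  have hcard : ∀ b : L, Nat.card {x : L // b ≤ x} = #{x : L | b ≤ x} := by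
    intro b
    rw [Nat.card_eq_fintype_card, Fintype.card_subtype]
  refine ⟨?_, ?_⟩
  · simp only [hcard, Nat.card_eq_fintype_card]
    exact key
  · have hex : ∃ b : L, SupIrred b ∧ 2 * #{x : L | b ≤ x} ≤ Fintype.card L := by
      by_contra hcon
      push Not at hcon
      have hlt : (∑ b : L, w b) * (Fintype.card L : ℝ)
          < ∑ b : L, 2 * (w b * (#{x : L | b ≤ x} : ℝ)) := by
        rw [Finset.sum_mul]
        apply Finset.sum_lt_sum
        · intro b _
          by_cases hb : w b = 0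
          · simp [hb]
          · have h3 : (Fintype.card L : ℝ) < 2 * (#{x : L | b ≤ x} : ℝ) := by
              exact_mod_cast hcon b (hI b hb).1
            have h4 := hw b
            nlinarith
        · obtain ⟨b, hb⟩ := hne
          refine ⟨b, mem_univ _, ?_⟩
          have h3 : (Fintype.card L : ℝ) < 2 * (#{x : L | b ≤ x} : ℝ) := by
            exact_mod_cast hcon b (hI b hb).1
          have h4 : 0 < w b := lt_of_le_of_ne (hw b) (Ne.symm hb)
          nlinarith
      rw [← Finset.mul_sum] at hlt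
      linarith
    obtain ⟨b, hb, hbc⟩ := hex
    obtain ⟨a, hba, ha⟩ := (Set.toFinite {c : L | SupIrred c}).exists_le_maximal hb
    refine ⟨a, ha, ?_⟩
    rw [hcard, Nat.card_eq_fintype_card]
    have h3 : #{x : L | a ≤ x} ≤ #{x : L | b ≤ x} := by
      apply Finset.card_le_card
      intro x hx
      simp only [mem_filter, mem_univ, true_and] at hx ⊢
      exact hba.trans hx
    omega

end Pool.Agent.H27.T2.HalfBelow
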